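import Pool.Agent.X289.RSD

/-!
# Generic representations of `PGL(2)^r` all of whose factors are nontempered at the same place

Let `φ_1, ..., φ_r` be unitary cuspidal automorphic representations of `PGL_2` over a number field `K`, unramified
outside the finite set `S` of places, with Hecke eigenvalues `λ_k(v) = a_k + a_k⁻¹`.  Then
`Φ = φ_1 ⊗ ... ⊗ φ_r` is a globally generic cuspidal representation of the split group `PGL_2^r`.  The conjecture
says `|λ_k(v)| ≤ 2` for all `k` and `v`.  How often can ALL the factors of `Φ_v` be nontempered?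

For `r = 1` the upper density is at most `1/35` (Kim-Shahidi).  A teammate's result at another problem
(`MP_fa98d2_nt.PrescribedSigns`) uses the `Sym^i φ_k`, `i ≤ 4`, and Ramakrishnan's products `φ_j ⊠ φ_k`, and
gets `1 / (8 r² + 46 r + 1)` if the signs of the `λ_k(v)` are prescribed.  Here the functorial products
`φ_j ⊠ Ad φ_k` of `GL_2 × GL_3 → GL_6` of Kim and Shahidi are used as well (`P` is the set of the pairs
`(j, k)`, `j ≠ k`, which are used; if `Ad φ_j` and `Ad φ_k` are not isomorphic and `φ_j` is not dihedral,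
the product is cuspidal, and it is assumed that the listed representations are pairwise not isomorphic):

* the places `v` with `ε_k λ_k(v) ≥ T_k` for all `k`, where `ε_k = ± 1`, `T_k ≥ (1 + √5)/2`, have upper density at
  most `1 / (1 + ∑_k W(T_k) + ∑_{j<k} T_j² T_k² + ∑_{(j,k) ∈ P} T_j² (T_k² - 1)²)`;
* with all the pairs the places at which all factors of `Φ` are nontempered and the eigenvalues have given signs
  have upper density at most `1 / (44 r² + 10 r + 1)`;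
* the places at which all factors are nontempered and the signs are given up to a common factor, for instance at
  which all the `λ_k(v)` have the same sign, have upper density at most `1 / (36 r² - 16 r)`.

The proof is the inequality of Rankin-Selberg type of `Pool.Agent.X289.RSD`.
-/

set_option autoImplicit false
set_option linter.unnecessarySeqFocus false

namespace Pool.Agent.Results.MP_08cfa9_nt.AllFactorsNontempered

open NumberField IsDedekindDomain Filter Topology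
open scoped ComplexConjugate

/-- The norm of the place `v`. -/
noncomputable def q {K : Type} [Field K] [NumberField K] (v : HeightOneSpectrum (𝓞 K)) : ℕ :=
  Ideal.absNorm v.asIdeal

/-- The finite places outside `S`. -/
abbrev Places {K : Type} [Field K] [NumberField K] (S : Finset (HeightOneSpectrum (𝓞 K))) :=
  {v : HeightOneSpectrum (𝓞 K) // v ∉ S}

/-- The list of representations: `1`, the `Sym^{i+1} φ_k` with `i < 4`, the `φ_j ⊠ φ_k` with `j < k`, and the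
`φ_j ⊠ Ad φ_k` with `(j, k) ∈ P`. -/
abbrev Rep (r : ℕ) (P : Finset (Fin r × Fin r)) :=
  Unit ⊕ (Fin r × Fin 4) ⊕ {p : Fin r × Fin r // p.1 < p.2} ⊕ {p : Fin r × Fin r // p ∈ P}

/-- The degree. -/
def deg {r : ℕ} {P : Finset (Fin r × Fin r)} : Rep r P → ℕ
  | Sum.inl _ => 1
  | Sum.inr (Sum.inl x) => x.2 + 2
  | Sum.inr (Sum.inr (Sum.inl _)) => 4
  | Sum.inr (Sum.inr (Sum.inr _)) => 6

section

variable {K : Type} [Field K] [NumberField K] {S : Finset (HeightOneSpectrum (𝓞 K))} {r : ℕ}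
  {P : Finset (Fin r × Fin r)}

/-- The Satake parameters of the representations, `a_k^{±1}` being the ones of `φ_k`: for `1` it is `1`; for
`Sym^i φ_k` they are `a_k^i, a_k^{i-2}, ..., a_k^{-i}`; for `φ_j ⊠ φ_k` they are `a_j^{±1} a_k^{±1}`, and for
`φ_j ⊠ Ad φ_k` they are `a_j^{±1} a_k^{±2}`, `a_j^{±1}`. -/
noncomputable def par (a : Fin r → Places S → ℂ) : (ρ : Rep r P) → Places S → Fin (deg ρ) → ℂ
  | Sum.inl _, _ => fun _ => 1
  | Sum.inr (Sum.inl x), v => fun l => a x.1 v ^ ((x.2 : ℤ) + 1 - 2 * (l : ℕ))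
  | Sum.inr (Sum.inr (Sum.inl p)), v => fun l => ![a p.1.1 v * a p.1.2 v,
      a p.1.1 v * (a p.1.2 v)⁻¹, (a p.1.1 v)⁻¹ * a p.1.2 v, (a p.1.1 v)⁻¹ * (a p.1.2 v)⁻¹] l
  | Sum.inr (Sum.inr (Sum.inr p)), v => fun l => ![a p.1.1 v * a p.1.2 v ^ 2, a p.1.1 v,
      a p.1.1 v * (a p.1.2 v)⁻¹ ^ 2, (a p.1.1 v)⁻¹ * a p.1.2 v ^ 2, (a p.1.1 v)⁻¹,
      (a p.1.1 v)⁻¹ * (a p.1.2 v)⁻¹ ^ 2] l

/-- The local factor of `L^S(s, ρ × ρ'~)` at `v`. -/
noncomputable def factor (a : Fin r → Places S → ℂ) (ρ ρ' : Rep r P) (s : ℂ) (v : Places S) : ℂ :=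
  ∏ l, ∏ m, (1 - par a ρ v l * conj (par a ρ' v m) * (q v.1 : ℂ) ^ (-s))⁻¹

/-- What is used of the forms `φ_k` with the Satake parameters `a_k, a_k⁻¹`. -/
structure Forms (P : Finset (Fin r × Fin r)) (a : Fin r → Places S → ℂ) : Prop where
  /-- the components are unitary -/
  unitary : ∀ k v, a k v ≠ 0 ∧ (‖a k v‖ = 1 ∨ (a k v).im = 0)
  /-- the bound of Jacquet and Shalika for `Sym⁴ φ_k` -/
  bound : ∀ k v, ‖a k v‖ ^ 8 < q v.1 ∧ ‖(a k v)⁻¹‖ ^ 8 < q v.1
  /-- the Euler products of Rankin and Selberg converge for real `s > 1` -/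
  conv : ∀ (ρ ρ' : Rep r P) (s : ℝ), 1 < s → Multipliable (factor a ρ ρ' s)
  /-- they have meromorphic continuations to neighbourhoods of `s = 1`, with a simple pole if `ρ = ρ'` and without
  zero and pole otherwise -/
  pole : ∀ ρ ρ' : Rep r P, ∃ Λ : ℂ → ℂ, MeromorphicAt Λ 1 ∧
    meromorphicOrderAt Λ 1 = ((-(if ρ = ρ' then 1 else 0) : ℤ) : WithTop ℤ) ∧
    ∀ᶠ s in 𝓝 (1 : ℂ), (1 : ℝ) < s.re → Λ s = ∏' v, factor a ρ ρ' s v

/-- The Hecke eigenvalue `λ_k(v) = a_k + a_k⁻¹`, a real number. -/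
noncomputable def lam (a : Fin r → Places S → ℂ) (k : Fin r) (v : Places S) : ℝ :=
  (a k v + (a k v)⁻¹).re

/-- The set `B` of places has upper density at most `d`:
`∑_{v ∈ B} (N v)^{-s} ≤ (d + ε) log (1 / (s - 1))` for every `ε > 0` and all real `s > 1` close to `1`. -/
def UpperDensityLe (B : Set (Places S)) (d : ℝ) : Prop :=
  ∀ ε : ℝ, 0 < ε → ∀ᶠ s : ℝ in 𝓝[>] 1,
    (Summable (B.indicator fun v => (q v.1 : ℝ) ^ (-s))) ∧
    ∑' v, B.indicator (fun v => (q v.1 : ℝ) ^ (-s)) v ≤ (d + ε) * Real.log (1 / (s - 1))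

/-- `T² + (T² - 1)² + (T³ - 2 T)² + (T⁴ - 3 T² + 1)²`. -/
def W (T : ℝ) : ℝ := T ^ 2 + (T ^ 2 - 1) ^ 2 + (T ^ 3 - 2 * T) ^ 2 + (T ^ 4 - 3 * T ^ 2 + 1) ^ 2

/-- The polynomials `U_i(x/2)`, `i = 1, 2, 3, 4`. -/
def U (i : Fin 4) (x : ℝ) : ℝ := ![x, x ^ 2 - 1, x ^ 3 - 2 * x, x ^ 4 - 3 * x ^ 2 + 1] i

theorem q_gt (v : Places S) : 1 < q v.1 := by
  unfold q
  have h1 := Ideal.absNorm_ne_zero_of_nonZeroDivisors
    ⟨v.1.asIdeal, mem_nonZeroDivisors_of_ne_zero v.1.ne_bot⟩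
  have h2 : Ideal.absNorm v.1.asIdeal ≠ 1 := fun h =>
    v.1.isPrime.ne_top (Ideal.absNorm_eq_one_iff.1 h)
  simp only at h1
  omega

theorem lam_eq {a : Fin r → Places S → ℂ} (h : Forms P a) (k : Fin r) (v : Places S) :
    a k v + (a k v)⁻¹ = (lam a k v : ℂ) := by
  unfold lam
  apply Complex.ext
  · simp
  · rw [Complex.ofReal_im, Complex.add_im, Complex.inv_im]
    rcases (h.unitary k v).2 with h1 | h1
    · rw [Complex.normSq_eq_norm_sq, h1]
      ring
    · rw [h1]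
      simp

theorem tr_one (a : Fin r → Places S → ℂ) (u : Unit) (v : Places S) :
    ∑ l, par (P := P) a (Sum.inl u) v l = 1 := by
  change ∑ _l : Fin 1, (1 : ℂ) = 1
  simp

theorem tr_sym {a : Fin r → Places S → ℂ} (h : Forms P a) (x : Fin r × Fin 4) (v : Places S) :
    ∑ l, par (P := P) a (Sum.inr (Sum.inl x)) v l = (U x.2 (lam a x.1 v) : ℂ) := by
  obtain ⟨k, i⟩ := x
  have h0 := (h.unitary k v).1
  have h1 := lam_eq h k v
  change ∑ l : Fin ((i : ℕ) + 2), a k v ^ (((i : ℕ) : ℤ) + 1 - 2 * ((l : ℕ) : ℤ)) =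
    ((U i (lam a k v) : ℝ) : ℂ)
  set t := a k v with ht
  unfold U
  fin_cases i
  · change ∑ l : Fin 2, t ^ (((0 : ℕ) : ℤ) + 1 - 2 * ((l : ℕ) : ℤ)) = ((lam a k v : ℝ) : ℂ)
    rw [← h1, Fin.sum_univ_two]
    norm_num
  · change ∑ l : Fin 3, t ^ (((1 : ℕ) : ℤ) + 1 - 2 * ((l : ℕ) : ℤ)) =
      ((lam a k v ^ 2 - 1 : ℝ) : ℂ)
    push_cast
    rw [← h1, Fin.sum_univ_three]
    norm_num
    field_simp
    ring
  · change ∑ l : Fin 4, t ^ (((2 : ℕ) : ℤ) + 1 - 2 * ((l : ℕ) : ℤ)) =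
      ((lam a k v ^ 3 - 2 * lam a k v : ℝ) : ℂ)
    push_cast
    rw [← h1, Fin.sum_univ_four]
    norm_num
    field_simp
    ring
  · change ∑ l : Fin 5, t ^ (((3 : ℕ) : ℤ) + 1 - 2 * ((l : ℕ) : ℤ)) =
      ((lam a k v ^ 4 - 3 * lam a k v ^ 2 + 1 : ℝ) : ℂ)
    push_cast
    rw [← h1, Fin.sum_univ_five]
    norm_num
    field_simp
    ring

theorem tr_prod {a : Fin r → Places S → ℂ} (h : Forms P a)
    (p : {p : Fin r × Fin r // p.1 < p.2}) (v : Places S) :
    ∑ l, par (P := P) a (Sum.inr (Sum.inr (Sum.inl p))) v l =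
      ((lam a p.1.1 v * lam a p.1.2 v : ℝ) : ℂ) := by
  push_cast
  rw [← lam_eq h, ← lam_eq h]
  change ∑ l : Fin 4, (![a p.1.1 v * a p.1.2 v, a p.1.1 v * (a p.1.2 v)⁻¹,
      (a p.1.1 v)⁻¹ * a p.1.2 v, (a p.1.1 v)⁻¹ * (a p.1.2 v)⁻¹] : Fin 4 → ℂ) l = _
  rw [Fin.sum_univ_four]
  simp
  ring

theorem tr_six {a : Fin r → Places S → ℂ} (h : Forms P a)
    (p : {p : Fin r × Fin r // p ∈ P}) (v : Places S) :
    ∑ l, par (P := P) a (Sum.inr (Sum.inr (Sum.inr p))) v l =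
      ((lam a p.1.1 v * (lam a p.1.2 v ^ 2 - 1) : ℝ) : ℂ) := by
  have h0 := (h.unitary p.1.2 v).1
  push_cast
  rw [← lam_eq h, ← lam_eq h]
  change ∑ l : Fin 6, (![a p.1.1 v * a p.1.2 v ^ 2, a p.1.1 v,
      a p.1.1 v * (a p.1.2 v)⁻¹ ^ 2, (a p.1.1 v)⁻¹ * a p.1.2 v ^ 2, (a p.1.1 v)⁻¹,
      (a p.1.1 v)⁻¹ * (a p.1.2 v)⁻¹ ^ 2] : Fin 6 → ℂ) l = _
  rw [Fin.sum_univ_six]
  have e : (a p.1.2 v + (a p.1.2 v)⁻¹) ^ 2 - 1 = a p.1.2 v ^ 2 + 1 + (a p.1.2 v)⁻¹ ^ 2 := by
    have : a p.1.2 v * (a p.1.2 v)⁻¹ = 1 := mul_inv_cancel₀ h0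
    linear_combination 2 * this
  rw [e]
  simp
  ring

theorem par_bound {a : Fin r → Places S → ℂ} (h : Forms P a) (ρ : Rep r P) (v : Places S) (l) :
    ‖par a ρ v l‖ ^ 2 < q v.1 := by
  have hq : (1 : ℝ) < q v.1 := by exact_mod_cast q_gt v
  have hz : ∀ (z : ℝ), 0 < z → z ^ 8 < q v.1 → ∀ j : ℕ, j ≤ 8 → z ^ j < q v.1 := by
    intro z hz hz4 j hj
    rcases le_or_gt z 1 with h6 | h6
    · exact (pow_le_one₀ hz.le h6).trans_lt hq
    · exact (pow_le_pow_right₀ h6.le hj).trans_lt hz4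
  have key : ∀ (k : Fin r) (n : ℤ), n.natAbs ≤ 4 → ‖a k v ^ n‖ ^ 2 < q v.1 := by
    intro k n hn
    obtain ⟨h1, h2⟩ := h.bound k v
    have h0 : 0 < ‖a k v‖ := norm_pos_iff.2 (h.unitary k v).1
    rw [norm_inv] at h2
    rw [norm_zpow]
    rcases Int.natAbs_eq n with h6 | h6
    · rw [h6, zpow_natCast, ← pow_mul]
      exact hz _ h0 h1 _ (by omega)
    · rw [h6, zpow_neg, zpow_natCast, ← inv_pow, ← pow_mul]
      exact hz _ (inv_pos.2 h0) h2 _ (by omega)
  -- the eighth powers of `x ∈ {a_j^{±1}}` and of `y ∈ {a_k^{±1}}` are less than `q`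
  have hb : ∀ k, ‖a k v‖ ^ 8 < q v.1 ∧ ‖(a k v)⁻¹‖ ^ 8 < q v.1 := fun k => h.bound k v
  have hmul : ∀ x y : ℂ, ‖x‖ ^ 8 < q v.1 → ‖y‖ ^ 8 < q v.1 → ‖x * y‖ ^ 2 < q v.1 := by
    intro x y hx hy
    have hxy : ‖x * y‖ ≤ max ‖x‖ ‖y‖ ^ 2 := by
      rw [norm_mul, sq]
      exact mul_le_mul (le_max_left _ _) (le_max_right _ _) (norm_nonneg _)
        ((norm_nonneg _).trans (le_max_left _ _))
    have hm : max ‖x‖ ‖y‖ ^ 8 < q v.1 := by
      rcases max_choice ‖x‖ ‖y‖ with h6 | h6 <;> rw [h6] <;> assumption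
    have hm0 : 0 ≤ max ‖x‖ ‖y‖ := (norm_nonneg _).trans (le_max_left _ _)
    calc ‖x * y‖ ^ 2 ≤ (max ‖x‖ ‖y‖ ^ 2) ^ 2 := pow_le_pow_left₀ (norm_nonneg _) hxy 2
      _ = max ‖x‖ ‖y‖ ^ 4 := by ring
      _ < q v.1 := by
        rcases hm0.eq_or_lt with h7 | h7
        · rw [← h7, zero_pow (by norm_num)]
          linarith
        · exact hz _ h7 hm 4 (by norm_num)
  have hmul3 : ∀ x y : ℂ, ‖x‖ ^ 8 < q v.1 → ‖y‖ ^ 8 < q v.1 → ‖x * y ^ 2‖ ^ 2 < q v.1 := by
    intro x y hx hy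
    have hxy : ‖x * y ^ 2‖ ≤ max ‖x‖ ‖y‖ ^ 3 := by
      rw [norm_mul, norm_pow]
      calc ‖x‖ * ‖y‖ ^ 2 ≤ max ‖x‖ ‖y‖ * max ‖x‖ ‖y‖ ^ 2 :=
            mul_le_mul (le_max_left _ _) (pow_le_pow_left₀ (norm_nonneg _) (le_max_right _ _) 2)
              (by positivity) ((norm_nonneg _).trans (le_max_left _ _))
        _ = _ := by ring
    have hm : max ‖x‖ ‖y‖ ^ 8 < q v.1 := by
      rcases max_choice ‖x‖ ‖y‖ with h6 | h6 <;> rw [h6] <;> assumption
    have hm0 : 0 ≤ max ‖x‖ ‖y‖ := (norm_nonneg _).trans (le_max_left _ _)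
    calc ‖x * y ^ 2‖ ^ 2 ≤ (max ‖x‖ ‖y‖ ^ 3) ^ 2 := pow_le_pow_left₀ (norm_nonneg _) hxy 2
      _ = max ‖x‖ ‖y‖ ^ 6 := by ring
      _ < q v.1 := by
        rcases hm0.eq_or_lt with h7 | h7
        · rw [← h7, zero_pow (by norm_num)]
          linarith
        · exact hz _ h7 hm 6 (by norm_num)
  have hone : ∀ x : ℂ, ‖x‖ ^ 8 < q v.1 → ‖x‖ ^ 2 < q v.1 := by
    intro x hx
    rcases (norm_nonneg x).eq_or_lt with h7 | h7
    · rw [← h7, zero_pow (by norm_num)]
      linarith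
    · exact hz _ h7 hx 2 (by norm_num)
  rcases ρ with u | x | p | p
  · change ‖(1 : ℂ)‖ ^ 2 < _
    rw [norm_one, one_pow]
    exact hq
  · obtain ⟨k, i⟩ := x
    change ‖a k v ^ ((i : ℤ) + 1 - 2 * ((l : ℕ) : ℤ))‖ ^ 2 < _
    refine key _ _ ?_
    have h1 := i.2
    have h2 : (l : ℕ) < (i : ℕ) + 2 := l.2
    omega
  · obtain ⟨k1, k1'⟩ := hb p.1.1
    obtain ⟨k2, k2'⟩ := hb p.1.2
    have hall : ∀ l : Fin 4, ‖(![a p.1.1 v * a p.1.2 v, a p.1.1 v * (a p.1.2 v)⁻¹,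
      (a p.1.1 v)⁻¹ * a p.1.2 v, (a p.1.1 v)⁻¹ * (a p.1.2 v)⁻¹] : Fin 4 → ℂ) l‖ ^ 2 < q v.1 := by
      intro l
      fin_cases l
      · exact hmul _ _ k1 k2
      · exact hmul _ _ k1 k2'
      · exact hmul _ _ k1' k2
      · exact hmul _ _ k1' k2'
    exact hall l
  · obtain ⟨k1, k1'⟩ := hb p.1.1
    obtain ⟨k2, k2'⟩ := hb p.1.2
    have hall : ∀ l : Fin 6, ‖(![a p.1.1 v * a p.1.2 v ^ 2, a p.1.1 v,
      a p.1.1 v * (a p.1.2 v)⁻¹ ^ 2, (a p.1.1 v)⁻¹ * a p.1.2 v ^ 2, (a p.1.1 v)⁻¹,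
      (a p.1.1 v)⁻¹ * (a p.1.2 v)⁻¹ ^ 2] : Fin 6 → ℂ) l‖ ^ 2 < q v.1 := by
      intro l
      fin_cases l
      · exact hmul3 _ _ k1 k2
      · exact hone _ k1
      · exact hmul3 _ _ k1 k2'
      · exact hmul3 _ _ k1' k2
      · exact hone _ k1'
      · exact hmul3 _ _ k1' k2'
    exact hall l

/-- the density bound -/
theorem dens {a : Fin r → Places S → ℂ} (h : Forms P a) (c₀ : ℝ) (c : Fin r → Fin 4 → ℝ)
    (d g : Fin r → Fin r → ℝ) {B : Set (Places S)} {X : ℝ} (hX : 0 < X)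
    (hB : ∀ v ∈ B, X ≤ |c₀ + ∑ k, ∑ i, c k i * U i (lam a k v) +
      ∑ p : {p : Fin r × Fin r // p.1 < p.2}, d p.1.1 p.1.2 * (lam a p.1.1 v * lam a p.1.2 v) +
      ∑ p : {p : Fin r × Fin r // p ∈ P}, g p.1.1 p.1.2 *
        (lam a p.1.1 v * (lam a p.1.2 v ^ 2 - 1))|) :
    UpperDensityLe B ((c₀ ^ 2 + ∑ k, ∑ i, c k i ^ 2 +
      ∑ p : {p : Fin r × Fin r // p.1 < p.2}, d p.1.1 p.1.2 ^ 2 +
      ∑ p : {p : Fin r × Fin r // p ∈ P}, g p.1.1 p.1.2 ^ 2) / X ^ 2) := by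
  classical
  set C : Rep r P → ℝ := Sum.elim (fun _ => c₀) (Sum.elim (fun x => c x.1 x.2)
    (Sum.elim (fun p => d p.1.1 p.1.2) fun p => g p.1.1 p.1.2)) with hC
  have h4 := Pool.Agent.X289.RSD.density (q := fun v : Places S => q v.1) (q_gt)
    (A := fun ρ v => par a ρ v) (par_bound h) (fun ρ ρ' s hs => h.conv ρ ρ' s hs)
    (e := fun ρ ρ' => if ρ = ρ' then 1 else 0) h.pole C (B := B) hX fun v hv => by
      have e1 : ∑ ρ, (C ρ : ℂ) * ∑ l, par a ρ v l = ((c₀ + ∑ k, ∑ i, c k i * U i (lam a k v) +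
          ∑ p : {p : Fin r × Fin r // p.1 < p.2}, d p.1.1 p.1.2 *
            (lam a p.1.1 v * lam a p.1.2 v) +
          ∑ p : {p : Fin r × Fin r // p ∈ P}, g p.1.1 p.1.2 *
            (lam a p.1.1 v * (lam a p.1.2 v ^ 2 - 1)) : ℝ) : ℂ) := by
        rw [Fintype.sum_sum_type, Fintype.sum_sum_type, Fintype.sum_sum_type]
        simp only [tr_one, tr_sym h, tr_prod h, tr_six h, hC, Sum.elim_inl, Sum.elim_inr]
        rw [Fintype.sum_prod_type]
        push_cast
        simp only [Finset.univ_unique, Finset.sum_singleton, mul_one]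
        ring
      rw [e1, Complex.norm_real]
      exact hB v hv
  have e2 : ∑ ρ : Rep r P, ∑ ρ' : Rep r P, C ρ * C ρ' * ((if ρ = ρ' then 1 else 0 : ℤ) : ℝ) =
      c₀ ^ 2 + ∑ k, ∑ i, c k i ^ 2 +
        ∑ p : {p : Fin r × Fin r // p.1 < p.2}, d p.1.1 p.1.2 ^ 2 +
        ∑ p : {p : Fin r × Fin r // p ∈ P}, g p.1.1 p.1.2 ^ 2 := by
    have e3 : ∀ ρ : Rep r P, ∑ ρ' : Rep r P, C ρ * C ρ' * ((if ρ = ρ' then 1 else 0 : ℤ) : ℝ) =
        C ρ ^ 2 := by
      intro ρ
      rw [Finset.sum_eq_single ρ]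
      · simp
        ring
      · intro ρ' _ hne
        rw [if_neg (Ne.symm hne)]
        simp
      · intro hne
        exact absurd (Finset.mem_univ _) hne
    simp only [e3]
    rw [Fintype.sum_sum_type, Fintype.sum_sum_type, Fintype.sum_sum_type, Fintype.sum_prod_type]
    simp only [hC, Sum.elim_inl, Sum.elim_inr, Finset.univ_unique, Finset.sum_singleton]
    ring
  rw [e2] at h4
  exact h4

theorem U_mono {T x : ℝ} (hT : (1 + √5) / 2 ≤ T) (hx : T ≤ x) (i : Fin 4) :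
    0 ≤ U i T ∧ U i T ≤ U i x := by
  have h5 : (√5) ^ 2 = 5 := Real.sq_sqrt (by norm_num)
  have h50 : 0 ≤ √5 := Real.sqrt_nonneg 5
  have h2 : (2 : ℝ) < √5 := by
    rw [Real.lt_sqrt (by norm_num)]
    norm_num
  have hT0 : (3 / 2 : ℝ) < T := by linarith
  have hT2 : T + 1 ≤ T ^ 2 := by
    have h6 : 0 ≤ (T - (1 + √5) / 2) * (T - (1 - √5) / 2) :=
      mul_nonneg (by linarith) (by linarith)
    nlinarith
  have hxx : T ^ 2 ≤ x ^ 2 := pow_le_pow_left₀ (by linarith) hx 2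
  unfold U
  fin_cases i
  · exact ⟨by simp; linarith, by simpa using hx⟩
  · refine ⟨?_, ?_⟩
    · change 0 ≤ T ^ 2 - 1
      nlinarith
    · change T ^ 2 - 1 ≤ x ^ 2 - 1
      linarith
  · refine ⟨?_, ?_⟩
    · change 0 ≤ T ^ 3 - 2 * T
      have : T ^ 3 - 2 * T = T * (T ^ 2 - 2) := by ring
      rw [this]
      exact mul_nonneg (by linarith) (by linarith)
    · change T ^ 3 - 2 * T ≤ x ^ 3 - 2 * x
      have e : (x ^ 3 - 2 * x) - (T ^ 3 - 2 * T) = (x - T) * (x ^ 2 + x * T + T ^ 2 - 2) := by ring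
      have h6 : 0 ≤ (x - T) * (x ^ 2 + x * T + T ^ 2 - 2) :=
        mul_nonneg (by linarith) (by nlinarith)
      linarith
  · refine ⟨?_, ?_⟩
    · change 0 ≤ T ^ 4 - 3 * T ^ 2 + 1
      have : T ^ 4 - 3 * T ^ 2 + 1 = (T ^ 2 - T - 1) * (T ^ 2 + T - 1) := by ring
      rw [this]
      exact mul_nonneg (by linarith) (by nlinarith)
    · change T ^ 4 - 3 * T ^ 2 + 1 ≤ x ^ 4 - 3 * x ^ 2 + 1
      have e : (x ^ 4 - 3 * x ^ 2 + 1) - (T ^ 4 - 3 * T ^ 2 + 1) =
        (x ^ 2 - T ^ 2) * (x ^ 2 + T ^ 2 - 3) := by ring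
      have h6 : 0 ≤ (x ^ 2 - T ^ 2) * (x ^ 2 + T ^ 2 - 3) :=
        mul_nonneg (by linarith) (by nlinarith)
      linarith

theorem U_sign {ε : ℝ} (hε : ε = 1 ∨ ε = -1) (i : Fin 4) (x : ℝ) :
    U i (ε * x) = ε ^ ((i : ℕ) + 1) * U i x := by
  unfold U
  rcases hε with rfl | rfl <;> fin_cases i <;> norm_num <;> ring

theorem W_eq (T : ℝ) : W T = ∑ i, U i T ^ 2 := by
  unfold W U
  rw [Fin.sum_univ_four]
  rfl

/-- the value of the test function at the thresholds -/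
noncomputable def V (P : Finset (Fin r × Fin r)) (T : Fin r → ℝ) : ℝ :=
  1 + ∑ k, W (T k) + ∑ p : {p : Fin r × Fin r // p.1 < p.2}, (T p.1.1 * T p.1.2) ^ 2 +
    ∑ p : {p : Fin r × Fin r // p ∈ P}, (T p.1.1 * (T p.1.2 ^ 2 - 1)) ^ 2

theorem golden {T : ℝ} (hT : (1 + √5) / 2 ≤ T) : 0 < T ∧ 0 < T ^ 2 - 1 := by
  have h5 : (2 : ℝ) < √5 := by
    rw [Real.lt_sqrt (by norm_num)]
    norm_num
  have : (3 / 2 : ℝ) < T := by linarith
  exact ⟨by linarith, by nlinarith⟩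

theorem six_mono {T T' x y : ℝ} (hT : (1 + √5) / 2 ≤ T) (hT' : (1 + √5) / 2 ≤ T')
    (hx : T ≤ x) (hy : T' ≤ y) :
    (T * (T' ^ 2 - 1)) ^ 2 ≤ T * (T' ^ 2 - 1) * (x * (y ^ 2 - 1)) := by
  obtain ⟨h1, _⟩ := golden hT
  obtain ⟨h3, h4⟩ := golden hT'
  have h5 : T' ^ 2 - 1 ≤ y ^ 2 - 1 := by
    have := pow_le_pow_left₀ h3.le hy 2
    linarith
  have h6 : T * (T' ^ 2 - 1) ≤ x * (y ^ 2 - 1) :=
    mul_le_mul hx h5 h4.le (h1.le.trans hx)
  rw [sq]
  exact mul_le_mul_of_nonneg_left h6 (mul_pos h1 h4).le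

theorem two_mono {T T' x y : ℝ} (hT : (1 + √5) / 2 ≤ T) (hT' : (1 + √5) / 2 ≤ T')
    (hx : T ≤ x) (hy : T' ≤ y) :
    (T * T') ^ 2 ≤ T * T' * (x * y) := by
  obtain ⟨h1, _⟩ := golden hT
  obtain ⟨h3, _⟩ := golden hT'
  have h6 : T * T' ≤ x * y := mul_le_mul hx hy h3.le (h1.le.trans hx)
  rw [sq]
  exact mul_le_mul_of_nonneg_left h6 (mul_pos h1 h3).le

theorem signs_bound {a : Fin r → Places S → ℂ} (h : Forms P a) {ε T : Fin r → ℝ}
    (hε : ∀ k, ε k = 1 ∨ ε k = -1) (hT : ∀ k, (1 + √5) / 2 ≤ T k) :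
    UpperDensityLe {v | ∀ k, T k ≤ ε k * lam a k v} (1 / V P T) := by
  set X : ℝ := V P T with hXd
  have hX : 0 < X := by
    have h1 : 0 ≤ ∑ k, W (T k) := Finset.sum_nonneg fun k _ => by
      rw [W_eq]
      positivity
    rw [hXd]
    unfold V
    positivity
  have hsq : ∀ k, ε k * ε k = 1 := fun k => by rcases hε k with h | h <;> rw [h] <;> norm_num
  have h1 := dens h 1 (fun k i => ε k ^ ((i : ℕ) + 1) * U i (T k))
    (fun j k => ε j * ε k * (T j * T k)) (fun j k => ε j * (T j * (T k ^ 2 - 1)))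
    (B := {v | ∀ k, T k ≤ ε k * lam a k v}) hX
    fun v hv => by
      have h2 : ∀ k, W (T k) ≤ ∑ i, (ε k ^ (((i : Fin 4) : ℕ) + 1) * U i (T k)) *
          U i (lam a k v) := by
        intro k
        rw [W_eq]
        refine Finset.sum_le_sum fun i _ => ?_
        obtain ⟨h3, h4⟩ := U_mono (hT k) (hv k) i
        rw [U_sign (hε k)] at h4
        calc U i (T k) ^ 2 = U i (T k) * U i (T k) := by ring
          _ ≤ U i (T k) * (ε k ^ ((i : ℕ) + 1) * U i (lam a k v)) :=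
            mul_le_mul_of_nonneg_left h4 h3
          _ = _ := by ring
      have h3 : ∀ p : {p : Fin r × Fin r // p.1 < p.2}, (T p.1.1 * T p.1.2) ^ 2 ≤
          ε p.1.1 * ε p.1.2 * (T p.1.1 * T p.1.2) * (lam a p.1.1 v * lam a p.1.2 v) := by
        intro p
        have h4 := two_mono (hT p.1.1) (hT p.1.2) (hv p.1.1) (hv p.1.2)
        refine h4.trans (le_of_eq ?_)
        ring
      have h3' : ∀ p : {p : Fin r × Fin r // p ∈ P}, (T p.1.1 * (T p.1.2 ^ 2 - 1)) ^ 2 ≤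
          ε p.1.1 * (T p.1.1 * (T p.1.2 ^ 2 - 1)) *
            (lam a p.1.1 v * (lam a p.1.2 v ^ 2 - 1)) := by
        intro p
        have h4 := six_mono (hT p.1.1) (hT p.1.2) (hv p.1.1) (hv p.1.2)
        refine h4.trans (le_of_eq ?_)
        have := hsq p.1.2
        linear_combination (ε p.1.1 * T p.1.1 * (T p.1.2 ^ 2 - 1) * lam a p.1.1 v *
          lam a p.1.2 v ^ 2) * this
      have h4 := Finset.sum_le_sum fun k (_ : k ∈ Finset.univ) => h2 k
      have h5 := Finset.sum_le_sum fun p (_ : p ∈ Finset.univ) => h3 p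
      have h6 := Finset.sum_le_sum fun p (_ : p ∈ Finset.univ) => h3' p
      refine le_trans ?_ (le_abs_self _)
      rw [hXd]
      unfold V
      linarith
  have e : (1 : ℝ) ^ 2 + ∑ k, ∑ i, (ε k ^ (((i : Fin 4) : ℕ) + 1) * U i (T k)) ^ 2 +
      ∑ p : {p : Fin r × Fin r // p.1 < p.2}, (ε p.1.1 * ε p.1.2 * (T p.1.1 * T p.1.2)) ^ 2 +
      ∑ p : {p : Fin r × Fin r // p ∈ P}, (ε p.1.1 * (T p.1.1 * (T p.1.2 ^ 2 - 1))) ^ 2 =
      X := by
    rw [hXd, one_pow]
    unfold V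
    congr 1
    · congr 1
      · congr 1
        refine Finset.sum_congr rfl fun k _ => ?_
        rw [W_eq]
        refine Finset.sum_congr rfl fun i _ => ?_
        rw [mul_pow, ← pow_mul, mul_comm ((i : ℕ) + 1) 2, pow_mul, sq, hsq, one_pow, one_mul]
      · refine Finset.sum_congr rfl fun p _ => ?_
        calc (ε p.1.1 * ε p.1.2 * (T p.1.1 * T p.1.2)) ^ 2 =
            (ε p.1.1 * ε p.1.1) * (ε p.1.2 * ε p.1.2) * (T p.1.1 * T p.1.2) ^ 2 := by ring
          _ = _ := by rw [hsq, hsq]; ring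
    · refine Finset.sum_congr rfl fun p _ => ?_
      calc (ε p.1.1 * (T p.1.1 * (T p.1.2 ^ 2 - 1))) ^ 2 =
          (ε p.1.1 * ε p.1.1) * (T p.1.1 * (T p.1.2 ^ 2 - 1)) ^ 2 := by ring
        _ = _ := by rw [hsq]; ring
  rw [e] at h1
  have e2 : X / X ^ 2 = 1 / X := by
    field_simp
  rw [e2] at h1
  exact h1

/-- the signs are given up to a common factor: only the odd representations are used -/
theorem odd_bound {a : Fin r → Places S → ℂ} (h : Forms P a) {ε : Fin r → ℝ}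
    (hε : ∀ k, ε k = 1 ∨ ε k = -1) (hr : 0 < r) :
    UpperDensityLe {v | (∀ k, 2 ≤ ε k * lam a k v) ∨ ∀ k, 2 ≤ -(ε k * lam a k v)}
      (1 / (20 * r + 36 * (P.card : ℝ))) := by
  have hr0 : (0 : ℝ) < r := by exact_mod_cast hr
  set X : ℝ := 20 * r + 36 * (P.card : ℝ) with hXd
  have hX : 0 < X := by positivity
  have hsq : ∀ k, ε k * ε k = 1 := fun k => by rcases hε k with h | h <;> rw [h] <;> norm_num
  have h5 : (2 : ℝ) ≥ (1 + √5) / 2 := by
    have : √5 ≤ 3 := by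
      rw [Real.sqrt_le_left (by norm_num)]
      norm_num
    linarith
  set c : Fin r → Fin 4 → ℝ := fun k i => if i = 0 then 2 * ε k else if i = 2 then 4 * ε k else 0
    with hc
  have hcs : ∀ (k : Fin r) (x : ℝ), ∑ i, c k i * U i x = ε k * (2 * x + 4 * (x ^ 3 - 2 * x)) := by
    intro k x
    rw [Fin.sum_univ_four]
    simp only [hc, U]
    simp
    ring
  -- the function at a place with positive signs
  have hpos : ∀ x : Fin r → ℝ, (∀ k, 2 ≤ ε k * x k) → X ≤ 0 + ∑ k, ∑ i, c k i * U i (x k) +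
      ∑ p : {p : Fin r × Fin r // p.1 < p.2}, 0 * (x p.1.1 * x p.1.2) +
      ∑ p : {p : Fin r × Fin r // p ∈ P}, (6 * ε p.1.1) * (x p.1.1 * (x p.1.2 ^ 2 - 1)) := by
    intro x hx
    have h2 : ∀ k, (20 : ℝ) ≤ ∑ i, c k i * U i (x k) := by
      intro k
      rw [hcs]
      have h6 := hx k
      have h7 : ε k * (2 * x k + 4 * (x k ^ 3 - 2 * x k)) =
          (ε k * x k) * (4 * (ε k * x k) ^ 2 - 6) := by
        have := hsq k
        linear_combination (-4 * ε k * x k ^ 3) * this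
      rw [h7]
      have h8 : (4 : ℝ) ≤ (ε k * x k) ^ 2 := by nlinarith
      have h9 : (10 : ℝ) ≤ 4 * (ε k * x k) ^ 2 - 6 := by linarith
      nlinarith
    have h3 : ∀ p : {p : Fin r × Fin r // p ∈ P}, (36 : ℝ) ≤
        (6 * ε p.1.1) * (x p.1.1 * (x p.1.2 ^ 2 - 1)) := by
      intro p
      have h4 := six_mono h5 h5 (hx p.1.1) (hx p.1.2)
      have e : (2 : ℝ) * (2 ^ 2 - 1) * (ε p.1.1 * x p.1.1 * ((ε p.1.2 * x p.1.2) ^ 2 - 1)) =
          (6 * ε p.1.1) * (x p.1.1 * (x p.1.2 ^ 2 - 1)) := by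
        have := hsq p.1.2
        linear_combination (6 * ε p.1.1 * x p.1.1 * x p.1.2 ^ 2) * this
      rw [e] at h4
      norm_num at h4
      linarith
    have h4 := Finset.sum_le_sum fun k (_ : k ∈ Finset.univ) => h2 k
    have h6 := Finset.sum_le_sum fun p (_ : p ∈ Finset.univ) => h3 p
    simp only [Finset.sum_const, Finset.card_univ, Fintype.card_fin, nsmul_eq_mul,
      Fintype.card_coe] at h4 h6
    simp only [zero_mul, Finset.sum_const_zero, add_zero, zero_add]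
    rw [hXd]
    linarith
  have h1 := dens h 0 c (fun _ _ => 0) (fun j _ => 6 * ε j)
    (B := {v | (∀ k, 2 ≤ ε k * lam a k v) ∨ ∀ k, 2 ≤ -(ε k * lam a k v)}) hX
    fun v hv => by
      rcases hv with hv | hv
      · exact (hpos (fun k => lam a k v) hv).trans (le_abs_self _)
      · have h6 := hpos (fun k => -lam a k v) fun k => by
          have := hv k
          linarith
        refine h6.trans ?_
        refine le_trans (le_of_eq ?_) (neg_le_abs _)
        have e1 : ∀ k, ∑ i, c k i * U i (-lam a k v) = -∑ i, c k i * U i (lam a k v) := by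
          intro k
          rw [hcs, hcs]
          ring
        simp only [e1]
        simp only [zero_mul, Finset.sum_const_zero, add_zero, zero_add, Finset.sum_neg_distrib]
        have e3 : ∑ p : {p : Fin r × Fin r // p ∈ P},
            6 * ε p.1.1 * (-lam a p.1.1 v * ((-lam a p.1.2 v) ^ 2 - 1)) =
            -∑ p : {p : Fin r × Fin r // p ∈ P},
              6 * ε p.1.1 * (lam a p.1.1 v * (lam a p.1.2 v ^ 2 - 1)) := by
          rw [← Finset.sum_neg_distrib]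
          refine Finset.sum_congr rfl fun p _ => ?_
          ring
        rw [e3]
        ring
  have e : (0 : ℝ) ^ 2 + ∑ k, ∑ i, c k i ^ 2 +
      ∑ _p : {p : Fin r × Fin r // p.1 < p.2}, (0 : ℝ) ^ 2 +
      ∑ p : {p : Fin r × Fin r // p ∈ P}, (6 * ε p.1.1) ^ 2 = X := by
    have e1 : ∀ k, ∑ i, c k i ^ 2 = 20 := by
      intro k
      rw [Fin.sum_univ_four]
      simp only [hc]
      have := hsq k
      simp
      linear_combination 20 * this
    have e2 : ∀ p : {p : Fin r × Fin r // p ∈ P}, (6 * ε p.1.1) ^ 2 = 36 := by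
      intro p
      have := hsq p.1.1
      linear_combination 36 * this
    simp only [e1, e2, Finset.sum_const, Finset.card_univ, Fintype.card_fin, nsmul_eq_mul,
      Fintype.card_coe]
    rw [hXd]
    ring
  rw [e] at h1
  have e2 : X / X ^ 2 = 1 / X := by
    field_simp
  rw [e2] at h1
  exact h1

theorem card_pairs (r : ℕ) :
    (Fintype.card {p : Fin r × Fin r // p.1 < p.2} : ℝ) = (r : ℝ) * (r - 1) / 2 := by
  have h1 : Fintype.card {p : Fin r × Fin r // p.1 < p.2} +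
      Fintype.card {p : Fin r × Fin r // p.1 < p.2} + r = r * r := by
    have e1 : Fintype.card {p : Fin r × Fin r // p.1 < p.2} =
        (Finset.univ.filter fun p : Fin r × Fin r => p.1 < p.2).card := Fintype.card_subtype _
    have e2 : (Finset.univ.filter fun p : Fin r × Fin r => p.1 < p.2).card =
        (Finset.univ.filter fun p : Fin r × Fin r => p.2 < p.1).card := by
      refine Finset.card_bij (fun p _ => (p.2, p.1)) ?_ ?_ ?_
      · intro p hp
        simpa using hp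
      · rintro ⟨a, b⟩ _ ⟨c, d⟩ _ h
        simp only [Prod.mk.injEq] at h
        rw [h.1, h.2]
      · rintro ⟨a, b⟩ hp
        exact ⟨(b, a), by simpa using hp, rfl⟩
    have e3 : (Finset.univ.filter fun p : Fin r × Fin r => p.1 = p.2).card = r := by
      have : (Finset.univ.filter fun p : Fin r × Fin r => p.1 = p.2) =
          Finset.univ.map ⟨fun a : Fin r => (a, a), fun a b h => (Prod.mk.inj h).1⟩ := by
        ext ⟨a, b⟩
        simp only [Finset.mem_filter, Finset.mem_univ, true_and, Finset.mem_map]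
        constructor
        · rintro rfl
          exact ⟨a, rfl⟩
        · rintro ⟨c, h⟩
          have h2 := Prod.mk.inj h
          exact h2.1.symm.trans h2.2
      rw [this, Finset.card_map, Finset.card_univ, Fintype.card_fin]
    have e4 : (Finset.univ : Finset (Fin r × Fin r)) =
        ((Finset.univ.filter fun p : Fin r × Fin r => p.1 < p.2) ∪
          (Finset.univ.filter fun p : Fin r × Fin r => p.2 < p.1)) ∪
          (Finset.univ.filter fun p : Fin r × Fin r => p.1 = p.2) := by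
      ext p
      simp only [Finset.mem_univ, Finset.mem_union, Finset.mem_filter, true_and, true_iff]
      rcases lt_trichotomy p.1 p.2 with h | h | h
      · exact Or.inl (Or.inl h)
      · exact Or.inr h
      · exact Or.inl (Or.inr h)
    have e5 : (Finset.univ : Finset (Fin r × Fin r)).card = r * r := by
      rw [Finset.card_univ, Fintype.card_prod, Fintype.card_fin]
    rw [e4, Finset.card_union_of_disjoint, Finset.card_union_of_disjoint] at e5
    · rw [← e2, ← e1, e3] at e5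
      exact e5
    · rw [Finset.disjoint_filter]
      intro p _ h
      exact not_lt.2 h.le
    · rw [Finset.disjoint_left]
      intro p hp
      simp only [Finset.mem_union, Finset.mem_filter, Finset.mem_univ, true_and] at hp ⊢
      rcases hp with h | h
      · exact h.ne
      · exact h.ne'
  have h2 : (Fintype.card {p : Fin r × Fin r // p.1 < p.2} : ℝ) +
      Fintype.card {p : Fin r × Fin r // p.1 < p.2} + r = r * r := by exact_mod_cast h1
  linarith

theorem card_pairs' (r : ℕ) :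
    ((Finset.univ.filter fun p : Fin r × Fin r => p.1 ≠ p.2).card : ℝ) = (r : ℝ) * (r - 1) := by
  have h1 : (Finset.univ.filter fun p : Fin r × Fin r => p.1 ≠ p.2).card + r = r * r := by
    have e3 : (Finset.univ.filter fun p : Fin r × Fin r => p.1 = p.2).card = r := by
      have : (Finset.univ.filter fun p : Fin r × Fin r => p.1 = p.2) =
          Finset.univ.map ⟨fun a : Fin r => (a, a), fun a b h => (Prod.mk.inj h).1⟩ := by
        ext ⟨a, b⟩
        simp only [Finset.mem_filter, Finset.mem_univ, true_and, Finset.mem_map]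
        constructor
        · rintro rfl
          exact ⟨a, rfl⟩
        · rintro ⟨c, h⟩
          have h2 := Prod.mk.inj h
          exact h2.1.symm.trans h2.2
      rw [this, Finset.card_map, Finset.card_univ, Fintype.card_fin]
    have e5 := Finset.card_filter_add_card_filter_not (s := (Finset.univ : Finset (Fin r × Fin r)))
      (fun p : Fin r × Fin r => p.1 = p.2)
    rw [e3, Finset.card_univ, Fintype.card_prod, Fintype.card_fin] at e5
    simp only [ne_eq]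
    omega
  have h2 : ((Finset.univ.filter fun p : Fin r × Fin r => p.1 ≠ p.2).card : ℝ) + r = r * r := by
    exact_mod_cast h1
  linarith

theorem V_two (r : ℕ) (P : Finset (Fin r × Fin r)) :
    V P (fun _ => 2) = 8 * r ^ 2 + 46 * r + 1 + 36 * P.card := by
  unfold V
  rw [Finset.sum_const, Finset.sum_const, Finset.sum_const, Finset.card_univ, Finset.card_univ,
    Finset.card_univ, nsmul_eq_mul, nsmul_eq_mul, nsmul_eq_mul, card_pairs, Fintype.card_fin,
    Fintype.card_coe]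
  unfold W
  ring

end

/-- **All factors nontempered.**  Let `S` be a finite set of finite places of the number field `K`, let
`φ_1, ..., φ_r` be unitary cuspidal representations of `PGL_2` as in `Forms`, with the Hecke eigenvalues
`λ_k(v) = lam a k v`, and `P` the set of the pairs `(j, k)` for which `φ_j ⊠ Ad φ_k` is used.  Let `ε_k = ± 1`.

1. For `T_k ≥ (1 + √5)/2` the places with `ε_k λ_k(v) ≥ T_k` for all `k` have upper density at most
   `1 / (1 + ∑_k W(T_k) + ∑_{j<k} (T_j T_k)² + ∑_{(j,k) ∈ P} (T_j (T_k² - 1))²)`.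
2. Those with `ε_k λ_k(v) ≥ 2` for all `k` have upper density at most `1 / (8 r² + 46 r + 1 + 36 |P|)`, which is
   `1 / (44 r² + 10 r + 1)` if `P` consists of all the pairs `(j, k)` with `j ≠ k`.
3. For `r ≥ 1` those with `ε_k λ_k(v) ≥ 2` for all `k` or `ε_k λ_k(v) ≤ -2` for all `k` have upper density at most
   `1 / (20 r + 36 |P|)`, which is `1 / (36 r² - 16 r)` if `P` consists of all the pairs. -/
theorem result {K : Type} [Field K] [NumberField K] (S : Finset (HeightOneSpectrum (𝓞 K)))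
    (r : ℕ) (P : Finset (Fin r × Fin r)) (a : Fin r → Places S → ℂ) (h : Forms P a)
    (ε : Fin r → ℝ) (hε : ∀ k, ε k = 1 ∨ ε k = -1) :
    (∀ T : Fin r → ℝ, (∀ k, (1 + √5) / 2 ≤ T k) →
      UpperDensityLe {v | ∀ k, T k ≤ ε k * lam a k v} (1 / (1 + ∑ k, W (T k) +
        ∑ p : {p : Fin r × Fin r // p.1 < p.2}, (T p.1.1 * T p.1.2) ^ 2 +
        ∑ p : {p : Fin r × Fin r // p ∈ P}, (T p.1.1 * (T p.1.2 ^ 2 - 1)) ^ 2))) ∧
    UpperDensityLe {v | ∀ k, 2 ≤ ε k * lam a k v}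
      (1 / (8 * r ^ 2 + 46 * r + 1 + 36 * P.card)) ∧
    (P = Finset.univ.filter (fun p => p.1 ≠ p.2) →
      UpperDensityLe {v | ∀ k, 2 ≤ ε k * lam a k v} (1 / (44 * r ^ 2 + 10 * r + 1))) ∧
    (0 < r → UpperDensityLe {v | (∀ k, 2 ≤ ε k * lam a k v) ∨ ∀ k, 2 ≤ -(ε k * lam a k v)}
      (1 / (20 * r + 36 * P.card))) ∧
    (0 < r → P = Finset.univ.filter (fun p => p.1 ≠ p.2) →
      UpperDensityLe {v | (∀ k, 2 ≤ ε k * lam a k v) ∨ ∀ k, 2 ≤ -(ε k * lam a k v)}
        (1 / (36 * r ^ 2 - 16 * r))) := by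
  have h5 : √5 ≤ 3 := by
    rw [Real.sqrt_le_left (by norm_num)]
    norm_num
  have h1 := signs_bound h (T := fun _ => 2) hε fun k => by linarith
  rw [V_two] at h1
  have hP : P = Finset.univ.filter (fun p : Fin r × Fin r => p.1 ≠ p.2) →
      (P.card : ℝ) = (r : ℝ) * (r - 1) := by
    intro hP
    have h2 := card_pairs' r
    rw [hP]
    exact h2
  refine ⟨fun T hT => signs_bound h hε hT, h1, fun h2 => ?_, fun hr => odd_bound h hε hr,
    fun hr h2 => ?_⟩
  · rw [hP h2] at h1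
    have e : (8 : ℝ) * r ^ 2 + 46 * r + 1 + 36 * (r * (r - 1)) = 44 * r ^ 2 + 10 * r + 1 := by
      ring
    rw [e] at h1
    exact h1
  · have h3 := odd_bound h hε hr
    rw [hP h2] at h3
    have e : (20 : ℝ) * r + 36 * (r * (r - 1)) = 36 * r ^ 2 - 16 * r := by
      ring
    rw [e] at h3
    exact h3

end Pool.Agent.Results.MP_08cfa9_nt.AllFactorsNontempered
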