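import Mathlib
import Pool.Agent.X309.RN4

/-!
# Bounds towards the conjecture of Ramanujan at almost all places, for globally generic representations

Let `K` be a number field, `Π` a unitary globally generic cuspidal representation of a quasi-split group `G` over `K`
whose `n`-dimensional representation of the `L`-group gives a functorial lift to an isobaric sum of unitary cuspidal
representations on `GL_n` (for instance `GL_n` itself and, by Cogdell, Kim, Piatetski-Shapiro and Shahidi, the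
classical groups). Let `α_{i,v}`, `i ≤ n`, be the eigenvalues of its Satake parameter at the places `v` outside a finite
set `S`, and let `θ_v = max_i |log_{q_v} |α_{i,v}||`. So Ramanujan at `v` is `θ_v = 0`. The known bounds are
`θ_v ≤ 1/2 - 1/(n²+1)` for all `v` (Luo, Rudnick, Sarnak), and they tend to the trivial bound `1/2` like `1/n²`.

**Theorem 1.** Let `m = ⌊n/2⌋`. There is `C` with `∑_{q_v ≤ x} q_v^{-m (1 - 2 θ_v)} ≤ C log log x` for all `x ≥ 3`, and
`θ_v ≥ δ` for at most `C x^{m (1 - 2δ)} log log x` places with `q_v ≤ x`, for all `δ ≤ 1/2`.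

So `θ_v ≤ 1/2 - 1/(2m) + ε` outside of a set of `O(x^{1 - 2mε} log log x)` places with `q_v ≤ x`, in particular at
almost all places (density one, with a power saving).

**Theorem 2.** If the exterior powers `∧^j Π`, `2 ≤ j ≤ n/2`, also have Rankin-Selberg `L`-functions with the usual
properties (`n ≤ 3`: no condition; `n = 4`, so in particular `GSp_4`: a theorem of Kim), then the same holds with
`∑_{q_v ≤ x} q_v^{-(1 - 2 θ_v)} ≤ C log log x` and at most `C x^{1 - 2δ} log log x` places with `θ_v ≥ δ`.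

**Theorem 3.** For two representations `Π`, `Π'` of degrees `2` or `3` with Rankin-Selberg theory for `Π ⊠ Π'`
(Ramakrishnan for `GL_2 × GL_2`, Kim and Shahidi for `GL_2 × GL_3`) the same holds for the sum `θ_v(Π) + θ_v(Π')`.

Proof. Let `A = q_v^{θ_v} = max |α_{i,v}|`. As `Π_v` is unitary, the multiset of the `α_{i,v}` is stable under
`z ↦ 1 / conj z`, so that `e_{n-k} = e_n conj(e_k)` for the elementary symmetric functions. If all power sums
`p_j = ∑_i α_{i,v}^j`, `1 ≤ j ≤ m`, had absolute value at most `A^j / (2n)`, then by the identities of Newton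
`|e_j| ≤ A^j / (2n)` for `1 ≤ j ≤ m`, by the symmetry `|e_{n-j}| ≤ A^j / (2n)`, and
`α^n = ± e_1 α^{n-1} ± … ± e_n` with `|α| = A` gives `A^n ≤ (n - 1) A^n / (2n) + 1`, i.e. `A^n ≤ 2`. Now the
`|p_j|² q_v^{-jσ} / j` are terms of `log L^S(σ, Π × Π~)`, which is `O(log 1/(σ-1))`. Take `σ = 1 + 1/log x`.
-/

set_option autoImplicit false

namespace Pool.Agent.Results.MP_08cfa9_nt.BoundsAtAlmostAllPlaces

open NumberField IsDedekindDomain

/-- the finite places of `K` outside `S` -/
abbrev Places {K : Type} [Field K] [NumberField K] (S : Finset (HeightOneSpectrum (𝓞 K))) :=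
  {v : HeightOneSpectrum (𝓞 K) // v ∉ S}

/-- the number `q_v` of elements of the residue field -/
noncomputable def q {K : Type} [Field K] [NumberField K] {S : Finset (HeightOneSpectrum (𝓞 K))} (v : Places S) : ℝ :=
  ((Ideal.absNorm v.1.asIdeal : ℕ) : ℝ)

section

variable {K : Type} [Field K] [NumberField K] {S : Finset (HeightOneSpectrum (𝓞 K))}

/-- the components are unitary: the eigenvalues of the Satake parameters are nonzero and permuted by
`z ↦ 1 / conj z` -/
def UnitaryAt {n : ℕ} (α : Places S → Fin n → ℂ) : Prop :=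
  ∀ v, (∀ i, α v i ≠ 0) ∧ ∃ τ : Equiv.Perm (Fin n), ∀ i, α v (τ i) = ((starRingEnd ℂ) (α v i))⁻¹

/-- the term of `log L^S(σ, Π × Π~) = ∑_{v ∉ S} ∑_{k ≥ 1} |∑_i α_{i,v}^k|² / k · q_v^{-kσ}` for the place `v` and the
exponent `k`; the pair `(v, l)` stands for `k = l + 1` -/
noncomputable def term {ι : Type} [Fintype ι] (α : Places S → ι → ℂ) (σ : ℝ) (x : Places S × ℕ) : ℝ :=
  ‖∑ i, α x.1 i ^ (x.2 + 1)‖ ^ 2 / ((x.2 : ℝ) + 1) * ((q x.1) ^ (-σ)) ^ (x.2 + 1)

/-- Theory of Rankin and Selberg: `L^S(σ, Π × Π~)` converges absolutely for `σ > 1` and has a pole of finite order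
at `σ = 1`. -/
structure RankinSelberg {ι : Type} [Fintype ι] (α : Places S → ι → ℂ) : Prop where
  /-- absolute convergence -/
  summable : ∀ σ : ℝ, 1 < σ → Summable (term α σ)
  /-- `L^S(σ, Π × Π~) ≤ C (σ - 1)^{-r}` -/
  pole : ∃ (r : ℕ) (C : ℝ), ∀ σ : ℝ, 1 < σ → σ < 2 → Real.exp (∑' x, term α σ x) ≤ C / (σ - 1) ^ r

/-- the parameters of the exterior power `∧^j Π` -/
def ext {n : ℕ} (j : ℕ) (α : Places S → Fin n → ℂ) (v : Places S) (t : {t : Finset (Fin n) // t.card = j}) : ℂ :=
  ∏ i ∈ t.1, α v i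

/-- the parameters of `Π ⊠ Π'` -/
def tensor {n n' : ℕ} (α : Places S → Fin n → ℂ) (β : Places S → Fin n' → ℂ) (v : Places S)
    (i : Fin n × Fin n') : ℂ :=
  α v i.1 * β v i.2

/-- `θ_v = max_i |log_{q_v} |α_{i,v}||` -/
noncomputable def theta {n : ℕ} (α : Places S → Fin n → ℂ) (v : Places S) : ℝ :=
  ⨆ i, |Real.logb (q v) ‖α v i‖|

/-- For some `C` and all `x ≥ 3`: finitely many places have `q_v ≤ x`, the sum of `q_v^{-m (1 - 2 θ v)}` over these
places is at most `C log log x`, and for all `δ ≤ 1/2` at most `C x^{m (1 - 2δ)} log log x` of them have `θ v ≥ δ`. -/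
def AlmostAll (m : ℕ) (θ : Places S → ℝ) : Prop :=
  ∃ C : ℝ, ∀ x : ℝ, 3 ≤ x → {v : Places S | q v ≤ x}.Finite ∧
    (∀ s : Finset (Places S), (∀ v ∈ s, q v ≤ x) →
      ∑ v ∈ s, q v ^ (-(m * (1 - 2 * θ v))) ≤ C * Real.log (Real.log x)) ∧
    ∀ δ : ℝ, δ ≤ 1 / 2 →
      (({v : Places S | q v ≤ x ∧ δ ≤ θ v}.ncard : ℕ) : ℝ) ≤ C * x ^ (m * (1 - 2 * δ)) * Real.log (Real.log x)

end

open Pool.Agent.X309.RN in
theorem AlmostAll.of_rare {K : Type} [Field K] [NumberField K] {S : Finset (HeightOneSpectrum (𝓞 K))}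
    {m : ℕ} {θ : Places S → ℝ} (h : Rare (q (S := S)) θ (m : ℝ) (2 * (m : ℝ))) :
    AlmostAll m θ := by
  obtain ⟨C, hC⟩ := h
  refine ⟨C, fun x hx => ?_⟩
  obtain ⟨h1, h2, h3⟩ := hC x hx
  refine ⟨h1, fun s hs => ?_, fun δ hδ => ?_⟩
  · refine le_trans (le_of_eq (Finset.sum_congr rfl fun v _ => ?_)) (h2 s hs)
    congr 1
    ring
  · have h4 := h3 δ (by
      have : (0 : ℝ) ≤ m := Nat.cast_nonneg _
      nlinarith)
    rwa [show (m : ℝ) - 2 * m * δ = m * (1 - 2 * δ) by ring] at h4

open Pool.Agent.X309.RN in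
theorem log_of {K : Type} [Field K] [NumberField K] {S : Finset (HeightOneSpectrum (𝓞 K))} {ι : Type} [Fintype ι]
    {α : Places S → ι → ℂ} (h : RankinSelberg α) : LogGrowth (term α) := by
  obtain ⟨r, C, hC⟩ := h.pole
  exact LogGrowth.of_exp (fun σ h1 _ => h.summable σ h1) hC

theorem one_lt_q {K : Type} [Field K] [NumberField K] {S : Finset (HeightOneSpectrum (𝓞 K))} (v : Places S) :
    1 < q v := Pool.Agent.X309.RN.one_lt_norm v.1

theorem term_nonneg {K : Type} [Field K] [NumberField K] {S : Finset (HeightOneSpectrum (𝓞 K))} {ι : Type}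
    [Fintype ι] {α : Places S → ι → ℂ} (σ : ℝ) (x : Places S × ℕ) : 0 ≤ term α σ x := by
  unfold term
  have h1 : 0 ≤ (q x.1) ^ (-σ) := Real.rpow_nonneg (by linarith [one_lt_q x.1]) _
  positivity

open Pool.Agent.X309.RN in
/-- the terms with `k = 1` -/
theorem log_first {K : Type} [Field K] [NumberField K] {S : Finset (HeightOneSpectrum (𝓞 K))} {ι : Type} [Fintype ι]
    {α : Places S → ι → ℂ} (h : RankinSelberg α) : LogGrowth fun σ v => ‖∑ i, α v i‖ ^ 2 * q v ^ (-σ) := by
  have h1 := (log_of h).comp_inj (fun σ _ _ x => term_nonneg σ x) (i := fun v : Places S => (v, 0))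
    (fun v w hvw => (Prod.mk.inj hvw).1)
  have h2 : (fun (σ : ℝ) (v : Places S) => ‖∑ i, α v i‖ ^ 2 * q v ^ (-σ)) = fun σ v => term α σ (v, 0) := by
    funext σ v
    simp [term]
  rw [h2]
  exact h1

/-- **Theorem.** Let `K` be a number field, `S` a finite set of finite places, `α` (and `β`) the eigenvalues of the
Satake parameters, at the places outside `S`, of unitary representations with lifts to `GL_n`, `n ≥ 2` (and `GL_n'`).

(1) From Rankin-Selberg theory for `Π`: bounds towards Ramanujan at almost all places, with `m = ⌊n/2⌋`.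

(2) From Rankin-Selberg theory for `∧^j Π`, `1 ≤ j ≤ n/2`: the same with `m = 1`.

(3) `n, n' ∈ {2, 3}`: from Rankin-Selberg theory for `Π`, `Π'` and `Π ⊠ Π'`: the same for `θ_v(Π) + θ_v(Π')` with
`m = 1`. -/
theorem result {K : Type} [Field K] [NumberField K] (S : Finset (HeightOneSpectrum (𝓞 K))) :
    (∀ (n : ℕ) (α : Places S → Fin n → ℂ), 2 ≤ n → UnitaryAt α → RankinSelberg α →
      AlmostAll (n / 2) (theta α)) ∧
    (∀ (n : ℕ) (α : Places S → Fin n → ℂ), 2 ≤ n → UnitaryAt α →
      (∀ j, 1 ≤ j → j ≤ n / 2 → RankinSelberg (ext j α)) → AlmostAll 1 (theta α)) ∧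
    ∀ (n n' : ℕ) (α : Places S → Fin n → ℂ) (β : Places S → Fin n' → ℂ), 2 ≤ n → n ≤ 3 → 2 ≤ n' → n' ≤ 3 →
      UnitaryAt α → UnitaryAt β → RankinSelberg α → RankinSelberg β → RankinSelberg (tensor α β) →
      AlmostAll 1 (fun v => theta α v + theta β v) := by
  refine ⟨fun n α hn hu h => ?_, fun n α hn hu h => ?_, fun n n' α β hn hn3 hn' hn3' hua hub ha hb hab => ?_⟩
  · exact AlmostAll.of_rare (Pool.Agent.X309.RN.main_log hn one_lt_q (Pool.Agent.X309.RN.log_places S) hu
      h.summable (log_of h))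
  · refine AlmostAll.of_rare ?_
    have h1 := Pool.Agent.X309.RN.main_ext_log hn one_lt_q (Pool.Agent.X309.RN.log_places S) (a := α) hu
      fun j hj1 hj2 => ?_
    · rw [Nat.cast_one, mul_one]
      exact h1
    · have h2 := log_first (h j hj1 hj2)
      have h3 : (fun (σ : ℝ) (v : Places S) => ‖Pool.Agent.X309.RN.es (α v) j‖ ^ 2 * q v ^ (-σ)) =
          fun σ v => ‖∑ i, ext j α v i‖ ^ 2 * q v ^ (-σ) := by
        funext σ v
        congr 3
        unfold Pool.Agent.X309.RN.es ext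
        refine (Finset.sum_subtype (Finset.powersetCard j Finset.univ) (fun t => ?_)
          fun t => ∏ i ∈ t, α v i)
        simp [Finset.mem_powersetCard]
      rw [← h3] at h2
      exact h2
  · refine AlmostAll.of_rare ?_
    have h2 := log_first hab
    have h3 : (fun (σ : ℝ) (v : Places S) => ‖∑ i, tensor α β v i‖ ^ 2 * q v ^ (-σ)) =
        fun σ v => (‖∑ i, α v i‖ ^ 2 * ‖∑ i, β v i‖ ^ 2) * q v ^ (-σ) := by
      funext σ v
      unfold tensor
      rw [Fintype.sum_prod_type, ← Finset.sum_mul_sum, norm_mul, mul_pow]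
    rw [h3] at h2
    have h1 := Pool.Agent.X309.RN.main_pair_log hn hn' hn3 hn3' one_lt_q (Pool.Agent.X309.RN.log_places S)
      hua hub (log_first ha) (log_first hb) h2
    rw [Nat.cast_one, mul_one]
    exact h1

end Pool.Agent.Results.MP_08cfa9_nt.BoundsAtAlmostAllPlaces
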