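import Pool.Agent.X289.GoldMain

/-!
# Representations of `GL(2)` with conjugate quadratic coefficients are icosahedral in distribution

Let `π` and `π'` be unitary cuspidal automorphic representations of `GL_2` over a number field `K` (they are globally
generic), unramified outside the finite set `S` of places. Let `Ad` and `A⁴ = Sym⁴ ⊗ ω⁻²` be the lifts of Gelbart and
Jacquet to `GL_3` and of Kim to `GL_5`; suppose that `Ad π`, `A⁴ π`, `Ad π'`, `A⁴ π'` are cuspidal and that
`Ad π ≇ Ad π'`. Let `λ(v)` and `λ'(v)` be the traces of the Satake parameters.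

**Suppose that for all `v` outside a set of density zero `|λ(v)|²` and `|λ'(v)|²` are conjugate quadratic algebraic
integers** (equal rational integers or conjugate irrational ones; the quadratic field may depend on `v`). For
example let `π` have coefficients `|λ(v)|²` in the ring of integers of a real quadratic field, and let `π'` be a
conjugate of `π`. Then

1. `L(s, A⁴ π × A⁴ π')` has a pole at `s = 1`, so that `A⁴ π ≅ A⁴ π'`;
2. the places with `(|λ(v)|², |λ'(v)|²) = (0, 0)`, `(1, 1)`, `(4, 4)`, `((3 + √5)/2, (3 - √5)/2)`,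
   `((3 - √5)/2, (3 + √5)/2)` have the densities `1/4`, `1/3`, `1/60`, `1/5`, `1/5`, respectively, as for a pair of
   conjugate icosahedral Artin representations; the sum is one. In particular the field is always `ℚ(√5)`;
3. `π` and `π'` are tempered at all places outside a set of density zero.

So the generalized Ramanujan conjecture holds for these representations at almost all places in the sense of
density. For general `π` as above the density of the tempered places is only known to be at least `34/35` (Kim and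
Shahidi).

Examples are the representations attached to icosahedral Artin representations (for which the conclusion is clear).
Conversely it is known that equality of lifts implies more: Ramakrishnan (2011, *Icosahedral fibres of the symmetric
cube and algebraicity*) starts from `Sym³ π ≅ Sym³ π'` and `L(s, Sym⁵ π) = L(s, Sym² π' × π)` and proves that `π` is
tempered everywhere and algebraic. Here nothing is assumed except for the integrality of the coefficients, and the
relation between the lifts of `π` and `π'` and the law of the coefficients are conclusions.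

The proof. Let `x = |λ|² - 1` and `u = x² - x - 1` be the traces of `Ad π_v` and `A⁴ π_v`, and `x'`, `u'` those of `π'`.
Then `1, x, u, x', u'` are orthonormal up to the mean `e ∈ {0, 1}` of `u u'`.

* `F = (u + u')² + x² + x'² - x x' - 4` is nonnegative for all conjugate quadratic integers `≥ -1`; it vanishes only
  for `x = 0` and for the golden ratio and its conjugate. If `e = 0`, then `5 F - u² - u'² - u - u' ≥ 0` has the mean
  `-2`, a contradiction.
* If `e = 1`, then `F₂ = x (x + 1) (x - 3)² + x' (x' + 1) (x' - 3)² - (x - x')² + 3 (u - u')²` is nonnegative for such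
  conjugate integers and has the mean zero; it vanishes only for `x ∈ {-1, 0, 3}` and for the golden ratio and its
  conjugate. The characteristic functions of the five classes are bounded by `F₂` and the linear combinations of
  `1, x, x', u, u', x x'` given by the characters of the alternating group of degree five.

All these functions are nonnegative also for the powers of the Satake parameters, since the integrality is preserved.
They are not nonnegative for arbitrary real parameters, so Landau's argument works only because of the integrality.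

The structure `TwoForms` lists what is used. All of it is known: the local components are unitary; for the lifts
`A_0 = 1`, `A_1 = Ad π`, `A_2 = A⁴ π`, `A_3 = Ad π'`, `A_4 = A⁴ π'` the logarithm of `L^S(s, A_i × A_j)` converges
absolutely for real `s > 1`, and it has a continuation to a neighbourhood of `s = 1`, with a simple pole if
`A_i ≅ A_j` and holomorphic and not zero otherwise (Jacquet, Piatetski-Shapiro, Shalika, Shahidi). The order of the
pole of `L(s, A⁴ π × A⁴ π')` is called `e`.
-/

set_option autoImplicit false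

namespace Pool.Agent.Results.MP_08cfa9_nt.Golden

open NumberField IsDedekindDomain Filter Topology
open scoped ComplexConjugate

/-- The norm of the place `v`. -/
noncomputable def q {K : Type} [Field K] [NumberField K] (v : HeightOneSpectrum (𝓞 K)) : ℕ :=
  Ideal.absNorm v.asIdeal

/-- The finite places outside `S`. -/
abbrev Places {K : Type} [Field K] [NumberField K] (S : Finset (HeightOneSpectrum (𝓞 K))) :=
  {v : HeightOneSpectrum (𝓞 K) // v ∉ S}

/-- The Satake parameters of a unitary representation: a permutation of the parameters agrees with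
`z ↦ 1 / conj z`. -/
def Unitary (a : Fin 2 → ℂ) : Prop :=
  (∀ i, a i ≠ 0) ∧ ∃ τ : Equiv.Perm (Fin 2), ∀ i, a (τ i) = (conj (a i))⁻¹

/-- The representation with the parameters `a` is tempered. -/
def Tempered (a : Fin 2 → ℂ) : Prop := ∀ i, ‖a i‖ = 1

/-- The traces of the `k`-th powers of `1`, `Ad π_v`, `A⁴ π_v`, `Ad π'_v`, `A⁴ π'_v`; `t` and `t'` are the quotients of
the Satake parameters of `π_v` and of `π'_v`. -/
noncomputable def lifts (t t' : ℂ) (k : ℕ) : Fin 5 → ℂ :=
  ![1, t ^ k + 1 + (t ^ k)⁻¹, (t ^ k) ^ 2 + t ^ k + 1 + (t ^ k)⁻¹ + (t ^ k)⁻¹ ^ 2,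
    t' ^ k + 1 + (t' ^ k)⁻¹, (t' ^ k) ^ 2 + t' ^ k + 1 + (t' ^ k)⁻¹ + (t' ^ k)⁻¹ ^ 2]

section

variable {K : Type} [Field K] [NumberField K] {S : Finset (HeightOneSpectrum (𝓞 K))}

/-- The term `f(v, k) / k (N v)^{-ks}`, at `(v, k - 1)`. -/
noncomputable def term (f : Places S → ℕ → ℂ) (s : ℂ) (x : Places S × ℕ) : ℂ :=
  f x.1 (x.2 + 1) / ((x.2 : ℂ) + 1) * ((q x.1.1 : ℂ) ^ (-s)) ^ (x.2 + 1)

/-- What is used of two representations with the Satake parameters `a` and `b`: the logarithm of `L^S(s, A_i × A_j)`,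
`A_0 = 1`, `A_1 = Ad π`, `A_2 = A⁴ π`, `A_3 = Ad π'`, `A_4 = A⁴ π'`, is the sum of the terms. -/
structure TwoForms (e : ℤ) (a b : Places S → Fin 2 → ℂ) : Prop where
  /-- the components are unitary -/
  unitary : ∀ v, Unitary (a v) ∧ Unitary (b v)
  /-- absolute convergence for `s > 1` -/
  conv : ∀ (i j : Fin 5) (s : ℝ), 1 < s → Summable (term
    (fun v k => lifts (a v 0 / a v 1) (b v 0 / b v 1) k i * lifts (a v 0 / a v 1) (b v 0 / b v 1) k j) s)
  /-- the continuation to a neighbourhood of `s = 1`: the order of the pole is `1` for `i = j`, `e` for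
  `A⁴ π × A⁴ π'`, and `0` otherwise -/
  order : ∀ i j : Fin 5, ∃ Λ : ℂ → ℂ, MeromorphicAt Λ 1 ∧
    meromorphicOrderAt Λ 1 =
      ((if i = j then -1 else if (i = 2 ∧ j = 4) ∨ (i = 4 ∧ j = 2) then -e else 0 : ℤ) : WithTop ℤ) ∧
    ∀ᶠ s in 𝓝 (1 : ℂ), (1 : ℝ) < s.re → Λ s = Complex.exp (∑' x, term
      (fun v k => lifts (a v 0 / a v 1) (b v 0 / b v 1) k i * lifts (a v 0 / a v 1) (b v 0 / b v 1) k j) s x)

/-- The set `B` of places has upper density zero. -/
def DensityZero (B : Set (Places S)) : Prop :=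
  ∀ ε : ℝ, 0 < ε → ∀ᶠ s : ℝ in 𝓝[>] 1,
    (Summable (B.indicator fun v => (q v.1 : ℝ) ^ (-s))) ∧
    ∑' v, B.indicator (fun v => (q v.1 : ℝ) ^ (-s)) v ≤ ε * Real.log (1 / (s - 1))

/-- The set `B` of places has the (Dirichlet) density `d`. -/
def HasDensity (B : Set (Places S)) (d : ℝ) : Prop :=
  Tendsto (fun s : ℝ => (∑' v, B.indicator (fun v => (q v.1 : ℝ) ^ (-s)) v) / Real.log (1 / (s - 1)))
    (𝓝[>] 1) (𝓝 d)

/-- `n` and `n'` are the roots of a polynomial `X² - c X + e` with rational integers `c`, `e`, and they are equal or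
the polynomial has no rational roots. -/
def ConjugateIntegers (n n' : ℝ) : Prop :=
  ∃ c e : ℤ, n + n' = c ∧ n * n' = e ∧ (n = n' ∨ ¬ IsSquare (c ^ 2 - 4 * e))

theorem one_lt_q (v : Places S) : 1 < q v.1 := by
  have h1 : Ideal.absNorm v.1.asIdeal ≠ 0 := Ideal.absNorm_eq_zero_iff.not.2 v.1.ne_bot
  have h2 : Ideal.absNorm v.1.asIdeal ≠ 1 := fun h => v.1.isPrime.ne_top (Ideal.absNorm_eq_one_iff.1 h)
  unfold q
  omega

/-- **Conjugate quadratic coefficients.** -/
theorem result (e : ℤ) (he : e = 0 ∨ e = 1) (a b : Places S → Fin 2 → ℂ) (h : TwoForms e a b)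
    (N : Set (Places S)) (hN : DensityZero N)
    (hint : ∀ v ∉ N, ConjugateIntegers (‖a v 0 + a v 1‖ ^ 2) (‖b v 0 + b v 1‖ ^ 2)) :
    e = 1 ∧
    HasDensity {v | ‖a v 0 + a v 1‖ ^ 2 = 0 ∧ ‖b v 0 + b v 1‖ ^ 2 = 0} (1 / 4) ∧
    HasDensity {v | ‖a v 0 + a v 1‖ ^ 2 = 1 ∧ ‖b v 0 + b v 1‖ ^ 2 = 1} (1 / 3) ∧
    HasDensity {v | ‖a v 0 + a v 1‖ ^ 2 = 4 ∧ ‖b v 0 + b v 1‖ ^ 2 = 4} (1 / 60) ∧
    HasDensity {v | ‖a v 0 + a v 1‖ ^ 2 = (3 + √5) / 2 ∧ ‖b v 0 + b v 1‖ ^ 2 = (3 - √5) / 2} (1 / 5) ∧
    HasDensity {v | ‖a v 0 + a v 1‖ ^ 2 = (3 - √5) / 2 ∧ ‖b v 0 + b v 1‖ ^ 2 = (3 + √5) / 2} (1 / 5) ∧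
    DensityZero {v | ¬ Tempered (a v) ∨ ¬ Tempered (b v)} := by
  classical
  set x : Places S → ℕ → ℝ := fun v k => Pool.Agent.X289.Sat.trAd fun l => a v l ^ (k + 1) with hx
  set y : Places S → ℕ → ℝ := fun v k => Pool.Agent.X289.Sat.trAd fun l => b v l ^ (k + 1) with hy
  have hx0 : ∀ v, x v 0 = ‖a v 0 + a v 1‖ ^ 2 - 1 := fun v => by
    have := (Pool.Agent.X289.Sat.facts (h.unitary v).1).2.2.1
    simpa only [hx, zero_add, pow_one] using this
  have hy0 : ∀ v, y v 0 = ‖b v 0 + b v 1‖ ^ 2 - 1 := fun v => by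
    have := (Pool.Agent.X289.Sat.facts (h.unitary v).2).2.2.1
    simpa only [hy, zero_add, pow_one] using this
  have hA : ∀ v k (i : Fin 5), ((Pool.Agent.X289.Gold.A (x v k) (y v k) i : ℝ) : ℂ) =
      lifts (a v 0 / a v 1) (b v 0 / b v 1) (k + 1) i := by
    intro v k i
    have a1 := Pool.Agent.X289.Sat.adR_eq (h.unitary v).1 (k + 1) 1
    have a2 := Pool.Agent.X289.Sat.adR_eq (h.unitary v).1 (k + 1) 2
    have b1 := Pool.Agent.X289.Sat.adR_eq (h.unitary v).2 (k + 1) 1
    have b2 := Pool.Agent.X289.Sat.adR_eq (h.unitary v).2 (k + 1) 2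
    have five : ∀ x : Fin 5, x = 0 ∨ x = 1 ∨ x = 2 ∨ x = 3 ∨ x = 4 := by decide
    rcases five i with rfl | rfl | rfl | rfl | rfl
    · simp [Pool.Agent.X289.Gold.A, lifts]
    · exact a1
    · exact a2
    · exact b1
    · exact b2
  have hterm : ∀ (i j : Fin 5) (s : ℂ) (z : Places S × ℕ), Pool.Agent.X289.Lin.term (fun v => q v.1)
      (fun v k => ((Pool.Agent.X289.Gold.A (x v k) (y v k) i : ℝ) : ℂ) *
        (Pool.Agent.X289.Gold.A (x v k) (y v k) j : ℝ)) s z =
      term (fun v k => lifts (a v 0 / a v 1) (b v 0 / b v 1) k i * lifts (a v 0 / a v 1) (b v 0 / b v 1) k j) s z := by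
    intro i j s z
    unfold term Pool.Agent.X289.Lin.term
    simp only
    rw [hA, hA]
  obtain ⟨he1, hd, hz⟩ := Pool.Agent.X289.GoldMain.gold (q := fun v : Places S => q v.1) one_lt_q (x := x) (y := y)
    he (fun i j s hs => (h.conv i j s hs).congr fun z => (hterm i j s z).symm) (fun i j => by
      obtain ⟨Λ, g1, g2, g3⟩ := h.order i j
      refine ⟨Λ, g1, ?_, ?_⟩
      · rw [g2]
        unfold Pool.Agent.X289.GoldMain.E
        split_ifs <;> simp
      · filter_upwards [g3] with s g4 g5
        rw [g4 g5]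
        congr 1
        exact tsum_congr fun z => (hterm i j s z).symm)
    (N := N) (fun ε hε => by
      filter_upwards [hN ε hε] with s hs
      rw [zero_add]
      exact hs)
    (fun v k => Pool.Agent.X289.GoldMain.trAd_ge (Pool.Agent.X289.Sat.unitary_pow (h.unitary v).1 (k + 1)))
    (fun v k => Pool.Agent.X289.GoldMain.trAd_ge (Pool.Agent.X289.Sat.unitary_pow (h.unitary v).2 (k + 1)))
    (fun v hv k => by
      refine Pool.Agent.X289.GoldMain.conj_pow (h.unitary v).1 (h.unitary v).2 ?_ (k + 1)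
      obtain ⟨c, e', h1, h2, h3⟩ := hint v hv
      have k1 : Pool.Agent.X289.Sat.trAd (a v) = ‖a v 0 + a v 1‖ ^ 2 - 1 :=
        (Pool.Agent.X289.Sat.facts (h.unitary v).1).2.2.1
      have k2 : Pool.Agent.X289.Sat.trAd (b v) = ‖b v 0 + b v 1‖ ^ 2 - 1 :=
        (Pool.Agent.X289.Sat.facts (h.unitary v).2).2.2.1
      refine ⟨c - 2, e' - c + 1, ?_, ?_, ?_⟩
      · rw [k1, k2]
        push_cast
        linarith
      · rw [k1, k2]
        push_cast
        linear_combination h2 - h1
      · rcases h3 with h3 | h3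
        · left
          rw [k1, k2, h3]
        · right
          have e1 : (c - 2) ^ 2 - 4 * (e' - c + 1) = c ^ 2 - 4 * e' := by ring
          rw [e1]
          exact h3)
  refine ⟨he1, ?_, ?_, ?_, ?_, ?_, ?_⟩
  · have h1 := hd 0
    have h2 : Pool.Agent.X289.GoldMain.cls x y 0 =
        {v | ‖a v 0 + a v 1‖ ^ 2 = 0 ∧ ‖b v 0 + b v 1‖ ^ 2 = 0} := by
      ext v
      show (x v 0 = -1 ∧ y v 0 = -1) ↔ _
      rw [hx0, hy0]
      constructor <;> rintro ⟨g1, g2⟩ <;> constructor <;> linarith
    rw [h2] at h1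
    exact h1
  · have h1 := hd 1
    have h2 : Pool.Agent.X289.GoldMain.cls x y 1 =
        {v | ‖a v 0 + a v 1‖ ^ 2 = 1 ∧ ‖b v 0 + b v 1‖ ^ 2 = 1} := by
      ext v
      show (x v 0 = 0 ∧ y v 0 = 0) ↔ _
      rw [hx0, hy0]
      constructor <;> rintro ⟨g1, g2⟩ <;> constructor <;> linarith
    rw [h2] at h1
    exact h1
  · have h1 := hd 2
    have h2 : Pool.Agent.X289.GoldMain.cls x y 2 =
        {v | ‖a v 0 + a v 1‖ ^ 2 = 4 ∧ ‖b v 0 + b v 1‖ ^ 2 = 4} := by
      ext v
      show (x v 0 = 3 ∧ y v 0 = 3) ↔ _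
      rw [hx0, hy0]
      constructor <;> rintro ⟨g1, g2⟩ <;> constructor <;> linarith
    rw [h2] at h1
    exact h1
  · have h1 := hd 3
    have h2 : Pool.Agent.X289.GoldMain.cls x y 3 =
        {v | ‖a v 0 + a v 1‖ ^ 2 = (3 + √5) / 2 ∧ ‖b v 0 + b v 1‖ ^ 2 = (3 - √5) / 2} := by
      ext v
      show (x v 0 = (1 + √5) / 2 ∧ y v 0 = (1 - √5) / 2) ↔ _
      rw [hx0, hy0]
      constructor <;> rintro ⟨g1, g2⟩ <;> constructor <;> linarith
    rw [h2] at h1
    exact h1
  · have h1 := hd 4
    have h2 : Pool.Agent.X289.GoldMain.cls x y 4 =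
        {v | ‖a v 0 + a v 1‖ ^ 2 = (3 - √5) / 2 ∧ ‖b v 0 + b v 1‖ ^ 2 = (3 + √5) / 2} := by
      ext v
      show (x v 0 = (1 - √5) / 2 ∧ y v 0 = (1 + √5) / 2) ↔ _
      rw [hx0, hy0]
      constructor <;> rintro ⟨g1, g2⟩ <;> constructor <;> linarith
    rw [h2] at h1
    exact h1
  · -- the places which are not tempered are in the last class
    have h5 : √5 < 3 := by
      rw [Real.sqrt_lt' (by norm_num)]
      norm_num
    have h5' : 0 ≤ √5 := Real.sqrt_nonneg _
    have hsub : {v : Places S | ¬ Tempered (a v) ∨ ¬ Tempered (b v)} ⊆ Pool.Agent.X289.GoldMain.cls x y 5 := by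
      intro v hv
      have hor : 3 < x v 0 ∨ 3 < y v 0 := by
        rcases hv with hv | hv
        · left
          have := (Pool.Agent.X289.Sat.facts (h.unitary v).1).2.2.2 hv
          simpa only [hx, zero_add, pow_one] using this
        · right
          have := (Pool.Agent.X289.Sat.facts (h.unitary v).2).2.2.2 hv
          simpa only [hy, zero_add, pow_one] using this
      show ¬ (x v 0 = -1 ∧ y v 0 = -1) ∧ ¬ (x v 0 = 0 ∧ y v 0 = 0) ∧ ¬ (x v 0 = 3 ∧ y v 0 = 3) ∧
        ¬ (x v 0 = (1 + √5) / 2 ∧ y v 0 = (1 - √5) / 2) ∧ ¬ (x v 0 = (1 - √5) / 2 ∧ y v 0 = (1 + √5) / 2)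
      refine ⟨?_, ?_, ?_, ?_, ?_⟩ <;> rintro ⟨g1, g2⟩ <;> rw [g1, g2] at hor <;>
        rcases hor with g3 | g3 <;> linarith
    intro ε hε
    filter_upwards [hz ε hε] with s hs
    have h1 : ∀ v, ({v : Places S | ¬ Tempered (a v) ∨ ¬ Tempered (b v)}).indicator
        (fun v : Places S => (q v.1 : ℝ) ^ (-s)) v ≤
        (Pool.Agent.X289.GoldMain.cls x y 5).indicator (fun v => (q v.1 : ℝ) ^ (-s)) v := fun v =>
      Set.indicator_le_indicator_of_subset hsub (fun _ => by positivity) v
    have h2 : Summable (({v : Places S | ¬ Tempered (a v) ∨ ¬ Tempered (b v)}).indicator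
        fun v : Places S => (q v.1 : ℝ) ^ (-s)) :=
      Summable.of_nonneg_of_le (fun v => Set.indicator_nonneg (fun v _ => by positivity) v) h1 hs.1
    refine ⟨h2, (h2.tsum_le_tsum h1 hs.1).trans ?_⟩
    have := hs.2
    rwa [zero_add] at this

end

end Pool.Agent.Results.MP_08cfa9_nt.Golden
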