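import Pool.Agent.X159.TP.Fin

/-!
# Generic cuspidal representations: many tempered places below a bound which is uniform in the representation

Let `Π` be a unitary cuspidal automorphic representation of `GL_n` over `ℚ`, `n ≥ 2` (every such `Π` is globally
generic). The starting result `LeastSmallTrace` of this problem finds one prime `p ≤ A C^{1+ε}`, `C` the analytic
conductor of `L(s, Π × Π~)` up to the norms of the removed factors at `S`, with a small power sum of the Satake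
parameters, and so, for `n ≤ 3`, one tempered prime; `TemperedEveryScale` finds `X^c` of them for fixed `Π` and
`X ≥ X₀(Π)`, with no control of `X₀`. Here:

1. (`n ≥ 2`) For every finite set `R` of primes at which `Π` is tempered there is `p ∉ R ∪ S` and `k ≥ 1` with
   `p^k ≤ A (C ∏_{r ∈ R} r^{2 (n - 1)})^{1+ε}` and `|α_{1,p}^k + ... + α_{n,p}^k| < 1`; if `n ≤ 3`, then `Π_p` is
   tempered.
2. (`n ≤ 3`) For every `k` there are at least `k + 1` primes
   `p ≤ (A C^{1+ε})^{(1 + 2 (n - 1) (1 + ε))^k}` at which `Π` is tempered.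
   So the number of the tempered primes up to `X` is at least `log (log X / log (A C^{1+ε})) / log (2 n - 1 + ε')`,
   for all `X ≥ A C^{1+ε}`, uniformly in `Π`.
3. The same for `GL_2` and `GL_3` over any number field (with the adjoint `L`-function, as in
   `MP_8410ab_nt.LeastTemperedPlace`).

`A` depends only on `n`, `ε` and the number field.

The proof: in the uniform version of Landau's theorem for Euler products (`Pool.Agent.TH949.UL.euler`) one may remove
finitely many factors `1 - γ q^{-s}`, `|γ| = 1`, each of which costs a factor `q` in the conductor. At a tempered place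
`|∑_i α_i^k|² - 1` is the sum of `|∑_{i<n} α_i^k|²` and of the `k`-th powers of the `2 (n - 1)` numbers
`α_i conj α_n`, `α_n conj α_i`, `i < n`. If one removes only the factors of these numbers, what is left is nonnegative,
and the place may be ignored. Iteration gives 2.
-/

set_option autoImplicit false

namespace Pool.Agent.Results.MP_08cfa9_nt.UniformTemperedPrimes

open NumberField IsDedekindDomain
open Pool.Agent.X159.TP (Temp size)

/-- **Uniformly many tempered places.** `CuspidalGL` (of `MP_08cfa9_nt.LeastSmallTrace` for `ℚ`, of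
`MP_8410ab_nt.LeastTemperedPlace` for number fields) lists what is used of `Π`; `Temp (α p)`: all the Satake
parameters at `p` have absolute value one; `size q Q κ T = Q² ∏_j (1 + |κ_j|) ∏_{x ∈ T} q x`. -/
theorem result :
    (∀ {n : ℕ}, 2 ≤ n → ∀ {ε : ℝ}, 0 < ε → ∃ A : ℝ, 1 ≤ A ∧
      ∀ (S : Finset Nat.Primes) (α : LeastSmallTrace.Unram S → Fin n → ℂ) (β : Nat.Primes → Fin (n ^ 2 - 1) → ℂ)
        (T : Finset (Nat.Primes × Fin (n ^ 2 - 1))) (κ : Fin (n ^ 2 - 1) → ℂ) (Q : ℝ),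
        LeastSmallTrace.CuspidalGL α β T κ Q →
        (∀ R : Finset (LeastSmallTrace.Unram S), (∀ p ∈ R, Temp (α p)) →
          ∃ (p : LeastSmallTrace.Unram S) (k : ℕ), p ∉ R ∧ 1 ≤ k ∧
            ((p.1 : ℕ) : ℝ) ^ k ≤ A * (size (fun p : Nat.Primes => ((p : ℕ) : ℝ)) Q κ T *
              ∏ r ∈ R, ((r.1 : ℕ) : ℝ) ^ (2 * (n - 1))) ^ (1 + ε) ∧
            ‖∑ i, α p i ^ k‖ < 1 ∧ (n ≤ 3 → Temp (α p))) ∧
        (n ≤ 3 → ∀ k : ℕ, ∃ R : Finset (LeastSmallTrace.Unram S), R.card = k + 1 ∧ ∀ p ∈ R, Temp (α p) ∧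
          ((p.1 : ℕ) : ℝ) ≤ (A * size (fun p : Nat.Primes => ((p : ℕ) : ℝ)) Q κ T ^ (1 + ε)) ^
            ((1 + 2 * ((n - 1 : ℕ) : ℝ) * (1 + ε)) ^ k))) ∧
    ∀ (K : Type) [Field K] [NumberField K] {n : ℕ}, n = 2 ∨ n = 3 → ∀ {ε : ℝ}, 0 < ε → ∃ A : ℝ, 1 ≤ A ∧
      ∀ (S : Finset (HeightOneSpectrum (𝓞 K))) (α : MP_8410ab_nt.LeastTemperedPlace.Places S → Fin n → ℂ)
        (β : HeightOneSpectrum (𝓞 K) → Fin (n ^ 2 - 1) → ℂ)
        (T : Finset (HeightOneSpectrum (𝓞 K) × Fin (n ^ 2 - 1)))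
        (κ : Fin ((n ^ 2 - 1) * Module.finrank ℚ K) → ℂ) (Q : ℝ),
        MP_8410ab_nt.LeastTemperedPlace.CuspidalGL α β T κ Q →
        (∀ R : Finset (MP_8410ab_nt.LeastTemperedPlace.Places S), (∀ v ∈ R, Temp (α v)) →
          ∃ v : MP_8410ab_nt.LeastTemperedPlace.Places S, v ∉ R ∧ Temp (α v) ∧
            (Ideal.absNorm v.1.asIdeal : ℝ) ≤
              A * (size (fun v : HeightOneSpectrum (𝓞 K) => (Ideal.absNorm v.asIdeal : ℝ)) Q κ T *
                ∏ w ∈ R, (Ideal.absNorm w.1.asIdeal : ℝ) ^ (2 * (n - 1))) ^ (1 + ε)) ∧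
        ∀ k : ℕ, ∃ R : Finset (MP_8410ab_nt.LeastTemperedPlace.Places S), R.card = k + 1 ∧
          ∀ v ∈ R, Temp (α v) ∧ (Ideal.absNorm v.1.asIdeal : ℝ) ≤
            (A * size (fun v : HeightOneSpectrum (𝓞 K) => (Ideal.absNorm v.asIdeal : ℝ)) Q κ T ^ (1 + ε)) ^
              ((1 + 2 * ((n - 1 : ℕ) : ℝ) * (1 + ε)) ^ k) :=
  ⟨fun hn _ hε => Pool.Agent.X159.TP.rat_part hn hε,
    fun K _ _ _ hn _ hε => Pool.Agent.X159.TP.nf_part K hn hε⟩

end Pool.Agent.Results.MP_08cfa9_nt.UniformTemperedPrimes
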